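import Pool.Agent.helper84.VN.Spec4n
import Pool.Agent.helper33.VQ.I64

set_option autoImplicit false

open scoped MatrixGroups ContDiff Topology UpperHalfPlane ComplexConjugate ENNReal
open UpperHalfPlane MeasureTheory Filter Set

namespace Pool.Agent.VN

open Pool.Agent.RS Pool.Agent.VQ
open Pool.Agent.VQE (nm)

lemma J64_adm {C : ℝ} {A : Prm} (hC : 10 ≤ C) (hA : Adm C A) :
    Adm 10 A ∧ C ^ 4 * (A.m * A.e3) ≤ 1 ∧ A.z2 ≤ 1 / 10 ∧ 0 ≤ A.z2 := by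
  have he := hA.e3
  have hz := hA.z
  have hz1 := hA.z1
  have hz2 := hA.z2
  have hup := hA.up
  have hm : (1 : ℝ) ≤ A.m := by exact_mod_cast hA.m
  have hz0 : 0 < A.z := lt_of_lt_of_le (by positivity) hz
  have hz10 : 0 < A.z1 := lt_of_lt_of_le (by positivity) hz1
  have hz20 : 0 < A.z2 := lt_of_lt_of_le (by positivity) hz2
  have hC0 : 0 < C := by linarith
  have hmz : (0 : ℝ) < A.m * A.z2 := by positivity
  have h1 : C ^ 3 * A.e3 ≤ A.z2 := by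
    calc C ^ 3 * A.e3 = C * (C * (C * A.e3)) := by ring
      _ ≤ C * (C * A.z) := by gcongr
      _ ≤ C * A.z1 := by gcongr
      _ ≤ A.z2 := hz2
  have h2 : C ^ 4 * (A.m * A.e3) ≤ 1 := by
    calc C ^ 4 * (A.m * A.e3) = C * (A.m * (C ^ 3 * A.e3)) := by ring
      _ ≤ C * (A.m * A.z2) := by gcongr
      _ ≤ 1 := hup
  have h10 : 10 * (A.m * A.z2) ≤ 1 := le_trans (mul_le_mul_of_nonneg_right hC hmz.le) hup
  refine ⟨⟨he, hA.m, ?_, ?_, ?_, h10, hA.tu⟩, h2, ?_, hz20.le⟩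
  · exact le_trans (mul_le_mul_of_nonneg_right hC he.le) hz
  · exact le_trans (mul_le_mul_of_nonneg_right hC hz0.le) hz1
  · exact le_trans (mul_le_mul_of_nonneg_right hC hz10.le) hz2
  · have : A.z2 ≤ A.m * A.z2 := by nlinarith
    linarith

lemma J64_RC {D : Dyn} {s r : ℝ} {W : Set ℝ} (m : ℕ) : ∀ p q : SL(2, ℝ) × ℝ, RC D s r W m p q → p.2 ∈ W ∧ q.2 ∈ W := by
  induction m with
  | zero =>
    intro p q h
    exact ⟨h.1, h.2.1⟩
  | succ m ih =>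
    intro p q h
    obtain ⟨x, hp, _, _, hR⟩ := h
    exact ⟨hp, (ih x q hR).2⟩

theorem J64_proof (hFN4 : FN4_stmt) (hCE4 : CE4_stmt) (hGF4 : GF4_stmt) (hAR4 : VQ.AR4_stmt) : J64_stmt := by
  intro Γ hΓ k B hk
  obtain ⟨Cf, hF⟩ := hFN4 Γ hΓ k B hk
  obtain ⟨K, hK, hG⟩ := hGF4 k Cf
  have hK0 : 0 < K := by linarith
  refine ⟨10 * K, by linarith, ?_⟩
  intro A hA
  obtain ⟨hA10, he, hz2, hz20⟩ := J64_adm (by linarith : 10 ≤ 10 * K) hA
  have hm : (1 : ℝ) ≤ A.m := by exact_mod_cast hA.m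
  have he0 : (0 : ℝ) < A.m * A.e3 := by
    have := hA.e3
    positivity
  have hKe : K * (A.m * A.e3) ≤ 1 / 20 := by
    have h1 : 10000 * (K * (A.m * A.e3)) ≤ (10 * K) ^ 4 * (A.m * A.e3) := by
      have h2 : K ≤ K ^ 4 := by
        calc K = K * 1 := by ring
          _ ≤ K * K ^ 3 := mul_le_mul_of_nonneg_left (one_le_pow₀ hK) hK0.le
          _ = K ^ 4 := by ring
      have h3 := mul_le_mul_of_nonneg_right h2 he0.le
      have h4 : (10 * K) ^ 4 * (A.m * A.e3) = 10000 * (K ^ 4 * (A.m * A.e3)) := by ring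
      rw [h4]
      linarith
    linarith
  obtain ⟨R0, hR0, hAR⟩ := hAR4 A 1 K (4 * k) hA10 le_rfl hK (by linarith)
  refine ⟨R0, by linarith, ?_⟩
  intro R D hR hOK p q hRe
  have hFD := hF D hOK
  obtain ⟨l, t, ε, hl, ht1, ht2, hsg, hr0, hr1, hε, hrε, h2ε, hKn, _, hE, _, _⟩ := hAR R hR
  have hR1 : 1 < R := by linarith
  have hRp : 0 < R := by linarith
  have hE' : ∀ E ∈ Wi 2 R, |E| ≤ k := by
    intro E hEW
    have := hE E hEW
    linarith
  obtain ⟨v, hv⟩ : ∃ v : ℕ → SL(2, ℝ) × ℝ, v = fun j => if j = 0 then p else q := ⟨_, rfl⟩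
  have hv0 : v 0 = p := by rw [hv]; rfl
  have hv1 : v 1 = q := by rw [hv]; rfl
  have hCh : Ch D A R 1 v := by
    intro j hj
    have hj0 : j = 0 := by omega
    subst hj0
    rw [zero_add, hv0, hv1]
    exact hRe
  obtain ⟨w, hPO, hw0, hPm, hen⟩ := hCE4 k Cf D hFD A R t ε l 1 v hsg hl hA.m hr0 hr1 hrε hE' le_rfl hCh
  obtain ⟨n, hn⟩ : ∃ n : ℕ, n = 1 * (A.m * l) := ⟨_, rfl⟩
  have hPm1 := hPm 1 le_rfl
  rw [hv1] at hPm1
  rw [hv0] at hw0 hen
  rw [← hn] at hPO hKn hen hPm1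
  have hnt : (n : ℝ) * t = A.tu R := by
    rw [hn]
    unfold Prm.tu
    rw [hsg]
    push_cast
    ring
  have hexp : Real.exp (K * (n * t)) ≤ R ^ (1 / 20 : ℝ) := by
    rw [hnt, Real.rpow_def_of_pos hRp]
    apply Real.exp_le_exp.2
    have hlog : 0 < Real.log R := Real.log_pos hR1
    have h1 : K * A.tu R = K * (A.m * A.e3) * Real.log R := by
      unfold Prm.tu Prm.sg
      ring
    rw [h1, mul_comm (Real.log R)]
    exact mul_le_mul_of_nonneg_right hKe hlog.le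
  have hn0 : (0 : ℝ) ≤ n := Nat.cast_nonneg _
  have htot : K * ((n + 1) * ε * Real.exp (K * (n * t))) ≤ R ^ (-(3 / 10) : ℝ) := by
    calc K * ((n + 1) * ε * Real.exp (K * (n * t))) = K * ((n + 1) * ε) * Real.exp (K * (n * t)) := by ring
      _ ≤ R ^ (-(1 / 2) + 3 / 2 * A.z2) * R ^ (1 / 20 : ℝ) :=
          mul_le_mul hKn hexp (Real.exp_pos _).le (Real.rpow_nonneg hRp.le _)
      _ = R ^ (-(1 / 2) + 3 / 2 * A.z2 + 1 / 20) := (Real.rpow_add hRp _ _).symm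
      _ ≤ R ^ (-(3 / 10) : ℝ) := Real.rpow_le_rpow_of_exponent_le hR1.le (by linarith)
  have hlt5 : R ^ (-(3 / 10) : ℝ) < R ^ (-(1 / 5) : ℝ) := Real.rpow_lt_rpow_of_exponent_lt hR1 (by norm_num)
  have hle1 : R ^ (-(3 / 10) : ℝ) ≤ 1 := Real.rpow_le_one_of_one_le_of_nonpos hR1.le (by norm_num)
  have henn : ∀ i ≤ n, |(w i).2 - (w 0).2| ≤ ε := by
    intro i hi
    rw [hw0]
    have h1 := hen i hi
    have h3 : 0 ≤ ((1 : ℕ) : ℝ) * ((A.m + 1) * A.r R) := by positivity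
    linarith
  have hfin := hG D hFD t ε n w (by linarith) hε.le (htot.trans hle1) hPO henn n le_rfl
  rw [hw0, hnt] at hfin
  have hnt' := hnt
  rw [hnt] at htot
  have hfin2 : nm ((D.fl p.2 (A.tu R) p.1)⁻¹ * (w n).1) < R ^ (-(1 / 5) : ℝ) := by linarith
  have hpq : |p.2 - q.2| ≤ (A.m + 1) * A.r R := by
    have h1 := hen n le_rfl
    rw [hPm1.2, abs_sub_comm] at h1
    have h2 : ((1 : ℕ) : ℝ) * ((A.m + 1) * A.r R) = (A.m + 1) * A.r R := by
      rw [Nat.cast_one, one_mul]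
    rw [h2] at h1
    exact h1
  have hεs : ε ≤ K * ((n + 1) * ε * Real.exp (K * A.tu R)) := by
    have htu : 0 ≤ A.tu R := by
      rw [← hnt]
      positivity
    have h1 : 1 ≤ Real.exp (K * A.tu R) := Real.one_le_exp (by positivity)
    have h2 : 1 * ε ≤ (n + 1) * ε := mul_le_mul_of_nonneg_right (by linarith) hε.le
    have h3 : 1 * ε * 1 ≤ (n + 1) * ε * Real.exp (K * A.tu R) :=
      mul_le_mul h2 h1 (by norm_num) (by positivity)
    have h4 : 1 * (1 * ε * 1) ≤ K * ((n + 1) * ε * Real.exp (K * A.tu R)) :=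
      mul_le_mul hK h3 (by positivity) hK0.le
    linarith
  have hmr : 0 < (A.m + 1) * A.r R := by positivity
  have h2ε' : 2 * ((A.m + 1) * A.r R) ≤ ε := by
    have h2 : ((1 : ℕ) : ℝ) * ((A.m + 1) * A.r R) = (A.m + 1) * A.r R := by
      rw [Nat.cast_one, one_mul]
    rw [h2] at h2ε
    exact h2ε
  obtain ⟨hp, hq⟩ := J64_RC A.m p q hRe
  refine ⟨⟨?_, ?_⟩, hp, hq, hpq⟩
  · show (D.fl p.2 (A.tu R) p.1)⁻¹ * q.1 ∈ Bo (R ^ (-(1 / 5) : ℝ))
    rw [I64_Bo]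
    rcases hPm1.1 with h | h
    · left
      rw [h] at hfin2
      exact hfin2
    · right
      rw [h, mul_neg] at hfin2
      exact hfin2
  · show |p.2 - q.2| < R ^ (-(1 / 5) : ℝ)
    linarith

end Pool.Agent.VN
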