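import Pool.Agent.helper55.VN.SpecD

set_option autoImplicit false

open scoped MatrixGroups ContDiff Topology UpperHalfPlane ComplexConjugate ENNReal
open UpperHalfPlane MeasureTheory Filter Set

namespace Pool.Agent.VN

open Pool.Agent.RS Pool.Agent.VQ
open Pool.Agent.RPQ (CEig mean VV IsOp)

lemma QDG_dist (g h : SL(2, ℝ)) : dist (g • I : ℍ) (h • I) = dist ((g⁻¹ * h) • I : ℍ) I := by
  rw [← dist_smul g⁻¹ (g • I : ℍ) (h • I), smul_smul, smul_smul, inv_mul_cancel, one_smul, dist_comm]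

lemma QDG_pow {R M : ℝ} (hM : 1 ≤ M) (hR : M ^ (100 : ℕ) ≤ R) : 1 ≤ R ∧ M ≤ R ^ (1 / 100 : ℝ) ∧ R ^ (-(1 / 100) : ℝ) ≤ 1 / M := by
  have h1 : 1 ≤ R := (one_le_pow₀ hM).trans hR
  have hM0 : 0 < M := by linarith
  have h2 : M ≤ R ^ (1 / 100 : ℝ) := by
    calc M = (M ^ (100 : ℕ)) ^ (1 / 100 : ℝ) := by
          rw [← Real.rpow_natCast, ← Real.rpow_mul hM0.le]
          norm_num
      _ ≤ R ^ (1 / 100 : ℝ) := Real.rpow_le_rpow (by positivity) hR (by norm_num)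
  refine ⟨h1, h2, ?_⟩
  rw [Real.rpow_neg (by linarith), ← one_div]
  exact one_div_le_one_div_of_le hM0 h2

theorem QDG_proof (hNHG : NHG_stmt) (hVBO : VBO_stmt) : QDG_stmt := by
  intro k hk
  obtain ⟨C1, hC1, hG⟩ := hNHG k hk
  obtain ⟨C2, hC2, _, _, hV, _⟩ := hVBO
  have hC10 : 0 < C1 := by linarith
  refine ⟨100 * C1, by linarith, ?_⟩
  intro B A hA
  obtain ⟨_, _, _, _, hz2, hme, _⟩ := Adm_small hA (by linarith)
  have he0 : (0 : ℝ) ≤ A.m * A.e3 := by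
    have := hA.e3
    positivity
  have hz2' : A.z2 ≤ 1 / 100 := by
    have h1 : 100 * C1 * A.z2 ≤ 1 := hz2
    by_contra hcon
    have h2 : 1 / 100 < A.z2 := not_le.1 hcon
    have h3 : 100 * C1 * (1 / 100) < 100 * C1 * A.z2 := mul_lt_mul_of_pos_left h2 (by positivity)
    linarith
  have hme' : C1 * (A.m * A.e3) ≤ 1 / 100 := by
    have h1 : 1 / (100 * C1) ≤ 1 := by
      rw [div_le_one (by positivity)]
      linarith
    have h2 : 100 * C1 * (A.m * A.e3) ≤ 1 := hme.trans h1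
    linarith
  obtain ⟨M, hM⟩ : ∃ M : ℝ, M = C1 + C2 + 2 / k + 4 := ⟨_, rfl⟩
  have hk2 : 0 < 2 / k := by positivity
  have hM1 : 1 ≤ M := by
    rw [hM]
    linarith
  have hM0 : 0 < M := by linarith
  refine ⟨M ^ (100 : ℕ), one_le_pow₀ hM1, ?_⟩
  intro R t Γ D p q hR hOK hp hq hNb ht0 ht
  obtain ⟨hR1, hRM, hRM'⟩ := QDG_pow hM1 hR
  have hR0 : 0 < R := by linarith
  -- the window
  have hwin : 2 * R ^ (-(1 / 4) : ℝ) ≤ k := by
    have h1 : R ^ (-(1 / 4) : ℝ) ≤ R ^ (-(1 / 100) : ℝ) := Real.rpow_le_rpow_of_exponent_le hR1 (by norm_num)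
    have h2 : 1 / M ≤ k / 2 := by
      rw [div_le_div_iff₀ hM0 (by norm_num)]
      have h3 : k * (2 / k) = 2 := by field_simp
      have h4 : k * (2 / k) ≤ k * M := mul_le_mul_of_nonneg_left (by rw [hM]; linarith) hk.le
      linarith
    linarith
  have hen : ∀ x : SL(2, ℝ) × ℝ, x ∈ GW 2 R → |x.2| ≤ k := by
    intro x hx
    have h1 : x.2 ∈ Wi 2 R := hx.2
    have h2 : |x.2| ≤ 2 * R ^ (-(1 / 4) : ℝ) := abs_le.2 h1
    exact h2.trans hwin
  -- the radius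
  have hr0 : 0 < A.r R := Real.rpow_pos_of_pos hR0 _
  obtain ⟨s, hs⟩ : ∃ s : ℝ, s = C1 * Real.exp (C1 * |t|) * A.r R := ⟨_, rfl⟩
  have hs0 : 0 < s := by
    rw [hs]
    positivity
  have hexp : Real.exp (C1 * |t|) ≤ R ^ (1 / 100 : ℝ) := by
    rw [Real.rpow_def_of_pos hR0]
    apply Real.exp_le_exp.2
    have hlog : 0 ≤ Real.log R := Real.log_nonneg hR1
    rw [abs_of_nonneg ht0]
    have h1 : C1 * t ≤ C1 * A.tu R := mul_le_mul_of_nonneg_left ht hC10.le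
    have h2 : C1 * A.tu R = C1 * (A.m * A.e3) * Real.log R := by
      unfold Prm.tu Prm.sg
      ring
    have h3 := mul_le_mul_of_nonneg_right hme' hlog
    rw [mul_comm (Real.log R)]
    linarith
  have hs1 : s ≤ C1 * R ^ (-(48 / 100) : ℝ) := by
    have h1 : A.r R ≤ R ^ (-(49 / 100) : ℝ) := Real.rpow_le_rpow_of_exponent_le hR1 (by linarith)
    calc s = C1 * (Real.exp (C1 * |t|) * A.r R) := by
          rw [hs]
          ring
      _ ≤ C1 * (R ^ (1 / 100 : ℝ) * R ^ (-(49 / 100) : ℝ)) := by gcongr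
      _ = C1 * R ^ (-(48 / 100) : ℝ) := by
          rw [← Real.rpow_add hR0]
          norm_num
  have hs2 : s ≤ R ^ (-(2 / 5) : ℝ) := by
    have h1 : C1 ≤ R ^ (8 / 100 : ℝ) := by
      have h2 : R ^ (1 / 100 : ℝ) ≤ R ^ (8 / 100 : ℝ) := Real.rpow_le_rpow_of_exponent_le hR1 (by norm_num)
      have h3 : C1 ≤ M := by
        rw [hM]
        linarith
      linarith
    calc s ≤ C1 * R ^ (-(48 / 100) : ℝ) := hs1
      _ ≤ R ^ (8 / 100 : ℝ) * R ^ (-(48 / 100) : ℝ) := mul_le_mul_of_nonneg_right h1 (Real.rpow_nonneg hR0.le _)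
      _ = R ^ (-(2 / 5) : ℝ) := by
          rw [← Real.rpow_add hR0]
          norm_num
  have hs3 : s ≤ 1 / 2 := by
    have h1 : R ^ (-(2 / 5) : ℝ) ≤ R ^ (-(1 / 100) : ℝ) := Real.rpow_le_rpow_of_exponent_le hR1 (by norm_num)
    have h2 : 1 / M ≤ 1 / 2 := by
      rw [div_le_div_iff₀ hM0 (by norm_num)]
      rw [hM]
      linarith
    linarith
  have hN := hG Γ B D hOK t (A.r R) p q (hen p hp) (hen q hq) hr0 (by rw [← hs]; linarith) hNb
  rw [← hs] at hN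
  have hB : (D.fl p.2 t p.1)⁻¹ * D.fl q.2 t q.1 ∈ Bo s := hN.1
  have hD := hV s _ hs0 hs3 hB
  rw [QDG_dist]
  refine hD.trans ?_
  have h1 : C2 ≤ R ^ (1 / 15 : ℝ) := by
    have h2 : R ^ (1 / 100 : ℝ) ≤ R ^ (1 / 15 : ℝ) := Real.rpow_le_rpow_of_exponent_le hR1 (by norm_num)
    have h3 : C2 ≤ M := by
      rw [hM]
      linarith
    linarith
  calc C2 * s ≤ R ^ (1 / 15 : ℝ) * R ^ (-(2 / 5) : ℝ) := mul_le_mul h1 hs2 hs0.le (Real.rpow_nonneg hR0.le _)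
    _ = R ^ (-(1 / 3) : ℝ) := by
        rw [← Real.rpow_add hR0]
        norm_num

end Pool.Agent.VN
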