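import Pool.Agent.helper99.VN.SpecU

set_option autoImplicit false

open scoped MatrixGroups ContDiff Topology UpperHalfPlane ComplexConjugate ENNReal
open UpperHalfPlane MeasureTheory Filter Set

namespace Pool.Agent.VN

open Pool.Agent.RS Pool.Agent.VQ

theorem SUMN_proof : SUMN_stmt := by
  intro V ι _ μ M vol A cl hcl hinj hvol
  have h1 : ∀ i, μ (A i) ≤ ∑ c ∈ Finset.range M, μ {v | v ∈ A i ∧ cl i v = c} := by
    intro i
    have hsub : A i ⊆ ⋃ c ∈ Finset.range M, {v | v ∈ A i ∧ cl i v = c} := by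
      intro v hv
      rw [Set.mem_iUnion₂]
      exact ⟨cl i v, Finset.mem_range.2 (hcl i v hv), hv, rfl⟩
    exact (measure_mono hsub).trans (measure_biUnion_finset_le _ _)
  have h2 : ∀ c ∈ Finset.range M, ∑' i, μ {v | v ∈ A i ∧ cl i v = c} ≤ vol := by
    intro c hc
    by_cases hex : ∃ i, ∃ v, v ∈ A i ∧ cl i v = c
    · obtain ⟨i, v, hv, hvc⟩ := hex
      rw [tsum_eq_single i]
      · exact hvol i c (Finset.mem_range.1 hc)
      · intro j hj
        have he : {v | v ∈ A j ∧ cl j v = c} = ∅ := by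
          rw [Set.eq_empty_iff_forall_notMem]
          rintro v' ⟨hv', hv'c⟩
          exact hj (hinj j i v' v hv' hv (hv'c.trans hvc.symm))
        rw [he, measure_empty]
    · have he : ∀ i, μ {v | v ∈ A i ∧ cl i v = c} = 0 := by
        intro i
        have he : {v | v ∈ A i ∧ cl i v = c} = ∅ := by
          rw [Set.eq_empty_iff_forall_notMem]
          rintro v' ⟨hv', hv'c⟩
          exact hex ⟨i, v', hv', hv'c⟩
        rw [he, measure_empty]
      rw [ENNReal.tsum_eq_zero.2 he]
      exact zero_le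
  calc ∑' i, μ (A i) ≤ ∑' i, ∑ c ∈ Finset.range M, μ {v | v ∈ A i ∧ cl i v = c} := ENNReal.tsum_le_tsum h1
    _ = ∑ c ∈ Finset.range M, ∑' i, μ {v | v ∈ A i ∧ cl i v = c} :=
        Summable.tsum_finsetSum fun _ _ => ENNReal.summable
    _ ≤ ∑ c ∈ Finset.range M, vol := Finset.sum_le_sum h2
    _ = M * vol := by rw [Finset.sum_const, Finset.card_range, nsmul_eq_mul]

end Pool.Agent.VN
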